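import Pool.Agent.Q189.IB.Stm5

/-!
# Project IB (helper189), job MIN: a lower bound for a product of polynomials at a grid point
-/

set_option autoImplicit false

open Finset MvPolynomial

namespace Pool.Agent.Q68.IB

section

set_option linter.unusedSectionVars false

variable {ι : Type} [Fintype ι] [DecidableEq ι] {d : ℕ}

/-- the exponents -/
noncomputable def fe (e : ι → Fin (d + 1)) : ι →₀ ℕ :=
  Finsupp.equivFunOnFinite.symm fun i => (e i : ℕ)

lemma fe_apply (e : ι → Fin (d + 1)) (i : ι) : fe e i = (e i : ℕ) := rfl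

lemma fe_inj : Function.Injective (fe : (ι → Fin (d + 1)) → ι →₀ ℕ) := by
  intro e e' h
  funext i
  apply Fin.ext
  rw [← fe_apply, ← fe_apply, h]

/-- the polynomial with the coefficients `b` -/
noncomputable def pol (b : (ι → Fin (d + 1)) → ℂ) : MvPolynomial ι ℂ := ∑ e, monomial (fe e) (b e)

lemma coeff_pol (b : (ι → Fin (d + 1)) → ℂ) (e : ι → Fin (d + 1)) :
    (pol b).coeff (fe e) = b e := by
  classical
  unfold pol
  rw [coeff_sum, Finset.sum_eq_single e]
  · rw [coeff_monomial, if_pos rfl]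
  · intro e' _ h
    rw [coeff_monomial, if_neg fun h' => h (fe_inj h')]
  · intro h
    exact absurd (Finset.mem_univ _) h

lemma degreeOf_pol (b : (ι → Fin (d + 1)) → ℂ) (i : ι) : (pol b).degreeOf i ≤ d := by
  classical
  rw [degreeOf_le_iff]
  intro m hm
  rw [mem_support_iff] at hm
  unfold pol at hm
  rw [coeff_sum] at hm
  obtain ⟨e, -, he⟩ := Finset.exists_ne_zero_of_sum_ne_zero hm
  rw [coeff_monomial] at he
  by_cases h : fe e = m
  · rw [← h, fe_apply]
    exact Nat.lt_succ_iff.1 (e i).2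
  · rw [if_neg h] at he
    exact absurd rfl he

lemma eval_pol (b : (ι → Fin (d + 1)) → ℂ) (y : ι → ℂ) :
    eval y (pol b) = ∑ e : ι → Fin (d + 1), b e * ∏ i, y i ^ (e i : ℕ) := by
  unfold pol
  rw [map_sum]
  refine Finset.sum_congr rfl fun e _ => ?_
  rw [eval_monomial, Finsupp.prod_fintype _ _ fun i => pow_zero _]
  rfl

/-- the values on the grid -/
lemma exists_grid {Λ : Type} [Fintype Λ] (a : Λ → (ι → Fin (d + 1)) → ℂ) (ha : ∀ l, a l ≠ 0) :
    ∃ y : ι → Fin (Fintype.card Λ * d + 1),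
      0 < ∏ l, ‖∑ e : ι → Fin (d + 1), a l e * ∏ i, ((y i : ℕ) : ℂ) ^ (e i : ℕ)‖ := by
  classical
  by_contra hcon
  push Not at hcon
  have h0 : ∏ l, pol (a l) = 0 := by
    refine eq_zero_of_eval_zero_at_prod_finset _
      (fun _ => (Finset.range (Fintype.card Λ * d + 1)).image fun k : ℕ => (k : ℂ)) ?_ ?_
    · intro i
      rw [Finset.card_image_of_injective _ Nat.cast_injective, Finset.card_range, Nat.lt_succ_iff]
      refine (degreeOf_prod_le i _ _).trans ?_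
      refine (Finset.sum_le_sum fun l _ => degreeOf_pol (a l) i).trans ?_
      simp
    · intro x hx
      have hx' : ∀ i, ∃ k : Fin (Fintype.card Λ * d + 1), ((k : ℕ) : ℂ) = x i := by
        intro i
        obtain ⟨k, hk, hk'⟩ := Finset.mem_image.1 (hx i)
        exact ⟨⟨k, Finset.mem_range.1 hk⟩, hk'⟩
      choose y hy using hx'
      have h1 := hcon y
      have h2 : ∏ l, ‖∑ e : ι → Fin (d + 1), a l e * ∏ i, ((y i : ℕ) : ℂ) ^ (e i : ℕ)‖ = 0 :=
        le_antisymm h1 (Finset.prod_nonneg fun l _ => norm_nonneg _)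
      obtain ⟨l, -, hl⟩ := Finset.prod_eq_zero_iff.1 h2
      rw [map_prod]
      refine Finset.prod_eq_zero (Finset.mem_univ l) ?_
      rw [eval_pol]
      have h3 := norm_eq_zero.1 hl
      rw [← h3]
      refine Finset.sum_congr rfl fun e _ => ?_
      congr 1
      exact Finset.prod_congr rfl fun i _ => by rw [hy]
  obtain ⟨l, -, hl⟩ := Finset.prod_eq_zero_iff.1 h0
  apply ha l
  funext e
  rw [← coeff_pol (a l) e, hl, coeff_zero]
  rfl

end

theorem min : Pool.Agent.Q189.IB.S_MIN := by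
  intro ι Λ _ _ _ d
  classical
  -- the compact set
  obtain ⟨K, hK⟩ : ∃ K : Set (Λ → (ι → Fin (d + 1)) → ℂ), K = {a | ∀ l, ‖a l‖ = 1} := ⟨_, rfl⟩
  have hmK : ∀ a, a ∈ K ↔ ∀ l, ‖a l‖ = 1 := by
    intro a
    rw [hK]
    rfl
  have hKc : IsCompact K := by
    rw [Metric.isCompact_iff_isClosed_bounded]
    constructor
    · have : K = ⋂ l, {a | ‖a l‖ = 1} := by
        ext a
        rw [hmK, Set.mem_iInter]
        rfl
      rw [this]
      exact isClosed_iInter fun l => isClosed_eq (by fun_prop) continuous_const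
    · rw [isBounded_iff_forall_norm_le]
      refine ⟨1, fun a ha => ?_⟩
      rw [pi_norm_le_iff_of_nonneg zero_le_one]
      exact fun l => ((hmK a).1 ha l).le
  obtain ⟨f, hf⟩ : ∃ f : (Λ → (ι → Fin (d + 1)) → ℂ) → (ι → Fin (Fintype.card Λ * d + 1)) → ℝ,
      ∀ a y, f a y = ∏ l, ‖∑ e : ι → Fin (d + 1), a l e * ∏ i, ((y i : ℕ) : ℂ) ^ (e i : ℕ)‖ :=
    ⟨_, fun a y => rfl⟩
  have hf0 : ∀ a y, 0 ≤ f a y := fun a y => by
    rw [hf]
    exact Finset.prod_nonneg fun l _ => norm_nonneg _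
  have hfc : Continuous fun a => ∑ y, f a y := by
    simp_rw [hf]
    fun_prop
  have hpos : ∀ a ∈ K, 0 < ∑ y, f a y := by
    intro a ha
    obtain ⟨y, hy⟩ := exists_grid a fun l h => by
      have := (hmK a).1 ha l
      rw [h, norm_zero] at this
      exact zero_ne_one this
    rw [← hf] at hy
    exact lt_of_lt_of_le hy (Finset.single_le_sum (fun y _ => hf0 a y) (Finset.mem_univ y))
  have hmin : ∃ μ : ℝ, 0 < μ ∧ ∀ a ∈ K, μ ≤ ∑ y, f a y := by
    by_cases hne : K.Nonempty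
    · obtain ⟨a0, ha0, hmin⟩ := hKc.exists_isMinOn hne hfc.continuousOn
      exact ⟨_, hpos a0 ha0, fun a ha => hmin ha⟩
    · exact ⟨1, one_pos, fun a ha => absurd ⟨a, ha⟩ hne⟩
  obtain ⟨μ, hμ, hμ'⟩ := hmin
  have hcard : (0 : ℝ) < Fintype.card (ι → Fin (Fintype.card Λ * d + 1)) := by
    exact_mod_cast Fintype.card_pos
  refine ⟨μ / Fintype.card (ι → Fin (Fintype.card Λ * d + 1)), by positivity, fun a => ?_⟩
  by_cases hz : ∃ l, a l = 0
  · obtain ⟨l, hl⟩ := hz
    refine ⟨fun _ => 0, ?_⟩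
    rw [Finset.prod_eq_zero (Finset.mem_univ l) (by rw [hl, norm_zero]), mul_zero]
    exact Finset.prod_nonneg fun l _ => norm_nonneg _
  push Not at hz
  have hn : ∀ l, 0 < ‖a l‖ := fun l => norm_pos_iff.2 (hz l)
  obtain ⟨a', ha'⟩ : ∃ a' : Λ → (ι → Fin (d + 1)) → ℂ, ∀ l, a' l = ((‖a l‖⁻¹ : ℝ) : ℂ) • a l :=
    ⟨_, fun l => rfl⟩
  have haK : a' ∈ K := by
    rw [hmK]
    intro l
    rw [ha', norm_smul, Complex.norm_real, norm_inv, norm_norm, inv_mul_cancel₀ (hn l).ne']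
  obtain ⟨y, -, hy⟩ : ∃ y ∈ (Finset.univ : Finset (ι → Fin (Fintype.card Λ * d + 1))),
      μ / Fintype.card (ι → Fin (Fintype.card Λ * d + 1)) ≤ f a' y := by
    apply Finset.exists_le_of_sum_le Finset.univ_nonempty
    rw [Finset.sum_const, Finset.card_univ, nsmul_eq_mul, mul_div_cancel₀ _ hcard.ne']
    exact hμ' a' haK
  refine ⟨y, ?_⟩
  have h1 : f a' y = (∏ l, ‖a l‖)⁻¹ *
      ∏ l, ‖∑ e : ι → Fin (d + 1), a l e * ∏ i, ((y i : ℕ) : ℂ) ^ (e i : ℕ)‖ := by
    rw [hf, ← Finset.prod_inv_distrib, ← Finset.prod_mul_distrib]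
    refine Finset.prod_congr rfl fun l _ => ?_
    have h2 : ∑ e : ι → Fin (d + 1), a' l e * ∏ i, ((y i : ℕ) : ℂ) ^ (e i : ℕ) =
        ((‖a l‖⁻¹ : ℝ) : ℂ) * ∑ e : ι → Fin (d + 1), a l e * ∏ i, ((y i : ℕ) : ℂ) ^ (e i : ℕ) := by
      rw [Finset.mul_sum]
      refine Finset.sum_congr rfl fun e _ => ?_
      rw [ha', Pi.smul_apply, smul_eq_mul, mul_assoc]
    rw [h2, norm_mul, Complex.norm_real, norm_inv, norm_norm]
  rw [h1] at hy
  have hP : 0 < ∏ l, ‖a l‖ := Finset.prod_pos fun l _ => hn l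
  rw [← div_eq_inv_mul, le_div_iff₀ hP] at hy
  exact hy

end Pool.Agent.Q68.IB
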